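import Pool.Agent.Work.MP_43ce8a_nt.D.Main

/-!
Almost all primes are sums of three positive integers whose product is a cube.
-/

namespace Pool.Agent.Results.MP_43ce8a_nt.AlmostAllPrimes

open Pool.Agent.Work.MP_43ce8a_nt Finset Filter

open Classical in
/-- The proportion of the primes `p < N` which are not a sum of three positive integers with cube
product, among all primes `p < N`, tends to `0`. -/
theorem result : Tendsto (fun N : ℕ =>
    (((range N).filter fun p => p.Prime ∧ ¬ InS p).card : ℝ) /
      (((range N).filter Nat.Prime).card : ℝ)) atTop (nhds 0) :=
  D.almost_all

end Pool.Agent.Results.MP_43ce8a_nt.AlmostAllPrimes
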