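import Pool.Agent.Work.MP_43ce8a_nt.Struct

/-!
Positive integers which are not a sum of three positive integers with cube product have at most
four distinct prime factors and at most eight prime factors counted with multiplicity.
-/

namespace Pool.Agent.Results.MP_43ce8a_nt.FewPrimeFactors

open Pool.Agent.Work.MP_43ce8a_nt Finset

/-- Let `n` be a positive integer which is not in `S`. Then every prime factor of `n` is `2` or
congruent to `5` or `11` modulo `24`; the exponent of `2` is at most `5`; there are at most two
prime factors congruent to `5` modulo `24`, and at most one if `n` is even; there are at most two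
distinct prime factors congruent to `11` modulo `24`, at most five counted with multiplicity, at
most three counted with multiplicity if there are two distinct ones, and at most two if `8`
divides `n`. Hence `n` has at most four distinct prime factors and at most eight prime factors
counted with multiplicity. -/
theorem result (n : ℕ) (hn : 0 < n) (h : ¬ InS n) :
    (∀ p ∈ n.primeFactors, p = 2 ∨ p % 24 = 5 ∨ p % 24 = 11) ∧
    n.factorization 2 ≤ 5 ∧
    om 5 n ≤ 2 ∧ (2 ∣ n → om 5 n ≤ 1) ∧
    #(pf 11 n) ≤ 2 ∧ om 11 n ≤ 5 ∧ (#(pf 11 n) = 2 → om 11 n ≤ 3) ∧ (8 ∣ n → om 11 n ≤ 2) ∧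
    #n.primeFactors ≤ 4 ∧ n.primeFactorsList.length ≤ 8 :=
  ⟨fun _ hp => prime_cases hn h hp, two_le hn h, NC.om5_two hn h, NC.om5_one hn h, card11 hn h,
    (om11 hn h).1, (om11 hn h).2, NC.om11_two hn h, NC.card_le4 hn h, NC.length_le8 hn h⟩

end Pool.Agent.Results.MP_43ce8a_nt.FewPrimeFactors
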