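import Pool.Agent.Work.MP_43ce8a_nt.NC

/-!
New residue classes of primes which are sums of three positive integers with cube product: the
primes `±1 mod 5` which are squares modulo 11, and the primes `11 mod 24` which are not squares
modulo 53.
-/

namespace Pool.Agent.Results.MP_43ce8a_nt.ResidueClasses

open Pool.Agent.Work.MP_43ce8a_nt

/-- Every prime `p ≠ 11` with `p = ±1 mod 5` which is a square modulo 11, and every prime
`p = 11 mod 24` which is not a square modulo 53, is a sum of three positive integers whose product
is a cube. -/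
theorem result :
    (∀ p : ℕ, p.Prime → p ≠ 11 → (p % 5 = 1 ∨ p % 5 = 4) → IsSquare (p : ZMod 11) → InS p) ∧
    (∀ p : ℕ, p.Prime → p % 24 = 11 → ¬ IsSquare (p : ZMod 53) → InS p) :=
  ⟨fun _ hp h11 h5 hs => NC.inS_5_11 hp h5 h11 hs, fun _ hp h24 hs => NC.inS_11_53 hp h24 hs⟩

end Pool.Agent.Results.MP_43ce8a_nt.ResidueClasses
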